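import Pool.Agent.Lib.MP_17cbde_lc.HardN

/-!
The decision version of the minimum-weight outerplane Laman graph problem is NP-hard.
-/

namespace Pool.Agent.Results.MP_17cbde_lc.NPHard

open N68a2faeb Pool.Agent.Lib.MP_17cbde_lc

theorem result (L : DecisionProblem) (hL : L ∈ NP) :
    ∃ f : List Bool → List (ℕ × ℕ) × ℕ, IsPolyTime f ∧
      ∀ x, (L x = true ↔ MWOL (f x).1 (f x).2) ∧ (f x).1.Nodup ∧
        (f x).2 ≤ 1000 * (f x).1.length ^ 2 ∧
        ∀ p ∈ (f x).1, p.1 ≤ 1000 * (f x).1.length ^ 2 ∧ p.2 ≤ 1000 * (f x).1.length ^ 2 :=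
  hard_nodup L hL

end Pool.Agent.Results.MP_17cbde_lc.NPHard
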